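import Pool.Agent.P.MP_506636_co.Gadget

set_option autoImplicit false

namespace Pool.Agent.P.MP_506636_co

open Set

/-- Lengths of the thirty placements. -/
def lens : List ℕ := [4, 6, 9, 6, 6, 6, 4, 6, 6, 7, 4, 5, 6, 8, 5, 5, 5, 7, 7, 7, 7, 8, 9, 9, 8, 5, 4, 7, 4, 8]

/-- The thirty placements, each completed to a permutation of `0, ..., 9`. -/
def rows : List (List ℕ) :=
  [[4, 1, 5, 0, 2, 3, 6, 7, 8, 9],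
   [3, 2, 6, 0, 7, 5, 1, 8, 4, 9],
   [3, 9, 2, 5, 1, 6, 0, 8, 4, 7],
   [6, 1, 2, 7, 0, 4, 3, 5, 8, 9],
   [5, 6, 2, 7, 1, 4, 0, 8, 3, 9],
   [0, 1, 3, 6, 2, 4, 7, 5, 8, 9],
   [4, 5, 2, 1, 0, 3, 6, 7, 8, 9],
   [1, 0, 4, 2, 6, 3, 7, 8, 5, 9],
   [0, 6, 3, 1, 2, 5, 4, 7, 8, 9],
   [0, 7, 1, 3, 8, 4, 2, 6, 5, 9],
   [2, 4, 0, 5, 1, 3, 6, 7, 8, 9],
   [3, 0, 5, 6, 2, 4, 1, 7, 8, 9],
   [3, 6, 2, 7, 1, 5, 0, 8, 4, 9],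
   [3, 8, 2, 9, 1, 6, 0, 7, 4, 5],
   [1, 3, 5, 6, 0, 4, 2, 7, 8, 9],
   [5, 1, 6, 7, 0, 2, 3, 4, 8, 9],
   [5, 2, 0, 6, 3, 4, 1, 7, 8, 9],
   [5, 3, 0, 7, 1, 4, 8, 9, 2, 6],
   [4, 3, 0, 7, 1, 2, 8, 9, 6, 5],
   [6, 3, 0, 7, 1, 2, 8, 4, 5, 9],
   [4, 3, 0, 7, 1, 2, 8, 5, 9, 6],
   [6, 8, 2, 9, 1, 4, 0, 3, 5, 7],
   [5, 3, 0, 6, 1, 4, 9, 8, 2, 7],
   [2, 0, 1, 8, 9, 6, 4, 7, 5, 3],
   [2, 0, 1, 7, 8, 6, 4, 5, 3, 9],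
   [0, 5, 1, 6, 3, 7, 2, 8, 4, 9],
   [2, 0, 1, 4, 5, 6, 3, 7, 8, 9],
   [0, 7, 1, 2, 3, 8, 4, 6, 5, 9],
   [1, 2, 3, 4, 5, 6, 0, 7, 8, 9],
   [0, 8, 1, 6, 3, 9, 4, 7, 5, 2]]

def kk (g : Fin 30) : ℕ := lens.getD g 0

def bb (g : Fin 30) (c : ℕ) : ℕ := (rows.getD g []).getD c 0

theorem kk_pos : ∀ g, 0 < kk g := by decide +kernel

theorem kk_le : ∀ g, kk g ≤ 10 := by decide +kernel

theorem bb_maps : ∀ g, ∀ c < 10, bb g c < 10 := by decide +kernel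

theorem bb_surj : ∀ g, ∀ v < 10, ∃ c < 10, bb g c = v := by decide +kernel

theorem bb_inj : ∀ g, ∀ c < 10, ∀ c' < 10, bb g c = bb g c' → c = c' := by decide +kernel

theorem bb_col : ∀ g g', g ≠ g' → ∃ c < 10, bb g c < kk g ∧ bb g' c < kk g' ∧
    (bb g c + 1 = bb g' c ∨ bb g' c + 1 = bb g c) := by decide +kernel

theorem bb_bij (g : Fin 30) : BijOn (bb g) (Iio 10) (Iio 10) :=
  ⟨fun c hc => bb_maps g c hc, fun c hc c' hc' h => bb_inj g c hc c' hc' h,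
    fun v hv => by
      obtain ⟨c, hc, h⟩ := bb_surj g v hv
      exact ⟨c, hc, h⟩⟩

theorem kk_sum : (1.83286 : ℝ) ^ 10 ≤ ∑ g, (1.83286 : ℝ) ^ (10 - kk g) := by
  simp only [Fin.sum_univ_succ, Fin.sum_univ_zero, kk, lens, Fin.val_zero, Fin.val_succ,
    List.getD_cons_zero, List.getD_cons_succ]
  norm_num

theorem fam_main (n : ℕ) : Fam n ((1.83286 : ℝ) ^ n / 1.83286 ^ 10) :=
  fam_pow kk bb kk_pos kk_le bb_bij bb_col _ (by norm_num) kk_sum n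

theorem fam_eventually : ∃ N : ℕ, ∀ n ≥ N, Fam n ((1.8328 : ℝ) ^ n) := by
  have h := tendsto_pow_atTop_atTop_of_one_lt (show (1 : ℝ) < 1.83286 / 1.8328 by norm_num)
  obtain ⟨N, hN⟩ := Filter.eventually_atTop.mp (h.eventually_ge_atTop ((1.83286 : ℝ) ^ 10))
  refine ⟨N, fun n hn => (fam_main n).mono ?_⟩
  have h1 := hN n hn
  rw [div_pow, le_div_iff₀ (by positivity)] at h1
  rw [le_div_iff₀ (by positivity)]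
  linarith [mul_comm ((1.83286 : ℝ) ^ 10) (1.8328 ^ n)]

end Pool.Agent.P.MP_506636_co
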