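import Mathlib

set_option autoImplicit false

namespace Pool.Agent.P.MP_506636_co

open Set

/-- `σ` and `π` take consecutive values at some place below `n`. -/
def Col (n : ℕ) (σ π : ℕ → ℕ) : Prop := ∃ i < n, σ i + 1 = π i ∨ π i + 1 = σ i

/-- There is a pairwise colliding family of at least `x` bijections of `{0, ..., n-1}`. -/
def Fam (n : ℕ) (x : ℝ) : Prop :=
  ∃ (ι : Type) (_ : Fintype ι) (f : ι → ℕ → ℕ), x ≤ Fintype.card ι ∧
    (∀ a, BijOn (f a) (Iio n) (Iio n)) ∧ ∀ a b, a ≠ b → Col n (f a) (f b)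

theorem Fam.mono {n : ℕ} {x y : ℝ} (h : Fam n y) (hxy : x ≤ y) : Fam n x := by
  obtain ⟨ι, hι, f, h1, h2, h3⟩ := h
  exact ⟨ι, hι, f, hxy.trans h1, h2, h3⟩

theorem fam_one (n : ℕ) : Fam n 1 := by
  refine ⟨Unit, inferInstance, fun _ => id, by simp, fun _ => bijOn_id _, ?_⟩
  intro a b hab
  exact absurd (Subsingleton.elim a b) hab

/-- Keep the values below `k`, move the others by `τ`. -/
def shift (k : ℕ) (τ : ℕ → ℕ) (v : ℕ) : ℕ := if v < k then v else k + τ (v - k)

theorem shift_bijOn {n k : ℕ} (hk : k ≤ n) {τ : ℕ → ℕ}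
    (hτ : BijOn τ (Iio (n - k)) (Iio (n - k))) : BijOn (shift k τ) (Iio n) (Iio n) := by
  refine ⟨?_, ?_, ?_⟩
  · intro v hv
    simp only [mem_Iio] at hv ⊢
    unfold shift
    split_ifs with h
    · exact hv
    · have := hτ.mapsTo (show v - k ∈ Iio (n - k) by simp only [mem_Iio]; omega)
      simp only [mem_Iio] at this
      omega
  · intro v hv w hw hvw
    simp only [mem_Iio] at hv hw
    unfold shift at hvw
    split_ifs at hvw with h1 h2 h2
    · exact hvw
    · omega
    · omega
    · have := hτ.injOn (show v - k ∈ Iio (n - k) by simp only [mem_Iio]; omega)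
        (show w - k ∈ Iio (n - k) by simp only [mem_Iio]; omega) (by omega)
      omega
  · intro v hv
    simp only [mem_Iio] at hv
    by_cases h : v < k
    · exact ⟨v, hv, by simp [shift, h]⟩
    · obtain ⟨w, hw, hwv⟩ := hτ.surjOn (show v - k ∈ Iio (n - k) by simp only [mem_Iio]; omega)
      simp only [mem_Iio] at hw
      refine ⟨k + w, by simp only [mem_Iio]; omega, ?_⟩
      simp only [shift, add_lt_iff_neg_left, not_lt_zero, if_false, Nat.add_sub_cancel_left]
      omega

/-- Extend a map of `{0, ..., m-1}` by the identity. -/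
def ext (m : ℕ) (β : ℕ → ℕ) (c : ℕ) : ℕ := if c < m then β c else c

theorem ext_bijOn {n m : ℕ} (hm : m ≤ n) {β : ℕ → ℕ} (hβ : BijOn β (Iio m) (Iio m)) :
    BijOn (ext m β) (Iio n) (Iio n) := by
  refine ⟨?_, ?_, ?_⟩
  · intro v hv
    simp only [mem_Iio] at hv ⊢
    unfold ext
    split_ifs with h
    · have := hβ.mapsTo (show v ∈ Iio m from h)
      simp only [mem_Iio] at this
      omega
    · exact hv
  · intro v _ w _ hvw
    unfold ext at hvw
    split_ifs at hvw with h1 h2 h2
    · exact hβ.injOn h1 h2 hvw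
    · have := hβ.mapsTo (show v ∈ Iio m from h1)
      simp only [mem_Iio] at this
      omega
    · have := hβ.mapsTo (show w ∈ Iio m from h2)
      simp only [mem_Iio] at this
      omega
    · exact hvw
  · intro v hv
    simp only [mem_Iio] at hv
    by_cases h : v < m
    · obtain ⟨w, hw, hwv⟩ := hβ.surjOn (show v ∈ Iio m from h)
      simp only [mem_Iio] at hw
      exact ⟨w, by simp only [mem_Iio]; omega, by simp [ext, hw, hwv]⟩
    · exact ⟨v, hv, by simp [ext, h]⟩

/-- The recursion given by a family of pairwise colliding placements of initial segments. -/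
theorem fam_gadget {r m n : ℕ} (hm : m ≤ n) (k : Fin r → ℕ) (β : Fin r → ℕ → ℕ)
    (hk : ∀ g, k g ≤ m) (hβ : ∀ g, BijOn (β g) (Iio m) (Iio m))
    (hc : ∀ g g', g ≠ g' → ∃ c < m, β g c < k g ∧ β g' c < k g' ∧
      (β g c + 1 = β g' c ∨ β g' c + 1 = β g c))
    (x : Fin r → ℝ) (hx : ∀ g, Fam (n - k g) (x g)) : Fam n (∑ g, x g) := by
  classical
  choose ι hι f h1 h2 h3 using hx
  refine ⟨Σ g, ι g, inferInstance, fun a => shift (k a.1) (f a.1 a.2) ∘ ext m (β a.1), ?_, ?_, ?_⟩
  · rw [Fintype.card_sigma, Nat.cast_sum]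
    exact Finset.sum_le_sum fun g _ => h1 g
  · intro a
    exact (shift_bijOn ((hk a.1).trans hm) (h2 a.1 a.2)).comp (ext_bijOn hm (hβ a.1))
  · rintro ⟨g, a⟩ ⟨g', b⟩ hab
    by_cases hg : g = g'
    · subst hg
      have hab' : a ≠ b := fun h => hab (by rw [h])
      obtain ⟨i, hi, hcol⟩ := h3 g a b hab'
      have hkn : k g ≤ n := (hk g).trans hm
      obtain ⟨c, hc1, hc2⟩ := (ext_bijOn hm (hβ g)).surjOn
        (show k g + i ∈ Iio n by simp only [mem_Iio]; omega)
      refine ⟨c, hc1, ?_⟩
      simp only [Function.comp, hc2, shift, add_lt_iff_neg_left, not_lt_zero, if_false,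
        Nat.add_sub_cancel_left]
      omega
    · obtain ⟨c, hc1, hc2, hc3, hc4⟩ := hc g g' hg
      refine ⟨c, by omega, ?_⟩
      simp only [Function.comp, ext, hc1, if_true, shift, hc2, hc3]
      exact hc4

/-- Exponential growth from one such family. -/
theorem fam_pow {r m : ℕ} (k : Fin r → ℕ) (β : Fin r → ℕ → ℕ)
    (hk0 : ∀ g, 0 < k g) (hk : ∀ g, k g ≤ m) (hβ : ∀ g, BijOn (β g) (Iio m) (Iio m))
    (hc : ∀ g g', g ≠ g' → ∃ c < m, β g c < k g ∧ β g' c < k g' ∧
      (β g c + 1 = β g' c ∨ β g' c + 1 = β g c))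
    (c : ℝ) (hc1 : 1 ≤ c) (hsum : c ^ m ≤ ∑ g, c ^ (m - k g)) (n : ℕ) :
    Fam n (c ^ n / c ^ m) := by
  have hc0 : 0 < c := by linarith
  induction n using Nat.strong_induction_on with
  | _ n ih =>
    by_cases hn : n < m
    · refine (fam_one n).mono ?_
      rw [div_le_one (by positivity)]
      exact pow_le_pow_right₀ hc1 hn.le
    · push Not at hn
      rcases Nat.eq_zero_or_pos n with h0 | h0
      · refine (fam_one n).mono ?_
        rw [div_le_one (by positivity), h0]
        exact pow_le_pow_right₀ hc1 (Nat.zero_le _)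
      refine (fam_gadget hn k β hk hβ hc (fun g => c ^ (n - k g) / c ^ m)
        (fun g => ih _ (by have := hk0 g; omega))).mono ?_
      rw [← Finset.sum_div]
      refine div_le_div_of_nonneg_right ?_ (by positivity)
      have h1 : c ^ n = c ^ (n - m) * c ^ m := by rw [← pow_add]; congr 1; omega
      rw [h1]
      calc c ^ (n - m) * c ^ m ≤ c ^ (n - m) * ∑ g, c ^ (m - k g) :=
            mul_le_mul_of_nonneg_left hsum (by positivity)
        _ = ∑ g, c ^ (n - k g) := by
            rw [Finset.mul_sum]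
            refine Finset.sum_congr rfl fun g _ => ?_
            rw [← pow_add]
            congr 1
            have := hk g
            omega

/-- From families of bijections of `{0, ..., n-1}` to families of permutations of `Fin n`. -/
theorem Fam.perm {n : ℕ} {x : ℝ} (h : Fam n x) :
    ∃ F : Finset (Equiv.Perm (Fin n)),
      (∀ σ ∈ F, ∀ π ∈ F, σ ≠ π →
        ∃ i : Fin n, (σ i).val + 1 = (π i).val ∨ (π i).val + 1 = (σ i).val) ∧
      x ≤ F.card := by
  classical
  obtain ⟨ι, hι, f, h1, h2, h3⟩ := h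
  let g : ι → Fin n → Fin n := fun a i => ⟨f a i, (h2 a).mapsTo i.2⟩
  have hg : ∀ a, Function.Injective (g a) := by
    intro a i j hij
    exact Fin.ext ((h2 a).injOn i.2 j.2 (congrArg Fin.val hij))
  let p : ι → Equiv.Perm (Fin n) := fun a =>
    Equiv.ofBijective (g a) (Finite.injective_iff_bijective.mp (hg a))
  have hp : ∀ a b, a ≠ b →
      ∃ i : Fin n, (p a i).val + 1 = (p b i).val ∨ (p b i).val + 1 = (p a i).val := by
    intro a b hab
    obtain ⟨i, hi, hcol⟩ := h3 a b hab
    exact ⟨⟨i, hi⟩, hcol⟩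
  have hinj : Function.Injective p := by
    intro a b hab
    by_contra hne
    obtain ⟨i, hi⟩ := hp a b hne
    rw [hab] at hi
    omega
  refine ⟨Finset.univ.image p, ?_, ?_⟩
  · intro σ hσ π hπ hne
    obtain ⟨a, -, rfl⟩ := Finset.mem_image.mp hσ
    obtain ⟨b, -, rfl⟩ := Finset.mem_image.mp hπ
    exact hp a b fun h => hne (by rw [h])
  · rw [Finset.card_image_of_injective _ hinj, Finset.card_univ]
    exact h1

end Pool.Agent.P.MP_506636_co
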